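import Pool.Agent.H15.G.R_seed8.TH603.Sur.Flat
import Pool.Agent.H15.G.R_seed8.TH603.Sur.Rows
import Pool.Agent.H15.G.R_seed8.TH603.Sur.Lim

/-! Charts of the weighted plane `P(1, 1, M)` at several nodes: definitions. -/

set_option autoImplicit false

namespace Pool.Agent.TH745.MN

open Finset Pool.Agent.TH176.Nag Pool.Agent.TH603.Sur

/-- the exponents of weight at most `D` in `P(1, 1, M)` -/
def WM (M D : ℕ) : Set (ℤ × ℤ) := {m | 0 ≤ m.1 ∧ 0 ≤ m.2 ∧ m.1 + M * m.2 ≤ (D : ℤ)}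

/-- the exponents seen at a node with orders `a`, `b`; row `l` (coordinate `m.2`) belongs to the
weight `W = D - 2 M l`, and its threshold is `ω W` -/
def SS (M D : ℕ) (a b : ℝ) (ω : ℕ → ℝ) : Set (ℤ × ℤ) :=
  {m | 0 ≤ m.2 ∧ 2 * M * m.2 ≤ (D : ℤ) ∧ a * m.1 < ω (D - 2 * M * m.2.toNat) ∧
    -(b * m.1) < ω (D - 2 * M * m.2.toNat)}

/-- enough exponents in every row -/
def Thr {β : Type} [Fintype β] (a b : β → ℝ) (ω : ℕ → ℝ) : Prop :=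
  ∀ W : ℕ, 0 < ω W ∧ 2 * W + 1 ≤ ∑ i, (⌈ω W / a i⌉₊ + ⌈ω W / b i⌉₊)

end Pool.Agent.TH745.MN
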