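import Pool.Agent.H15.G.R_seed8.TH745.MN.Key

/-! Independence on the triangle of a node, from a bound for all rows. -/

set_option autoImplicit false

namespace Pool.Agent.TH745.MN

open Finset Pool.Agent.TH176.Nag Pool.Agent.TH603.Sur

/-- the bound for the rows from the first and the last one (convexity) -/
theorem rows_le {κ : Type} [Fintype κ] (w : κ → ℕ) {M : ℕ} (hM : ∀ i, w i ≤ M) {n B : ℝ}
    (h1 : ((∑ i, w i : ℕ) : ℝ) + n ≤ B)
    (h2 : ((univ.filter fun i => w i = M).card : ℝ) + n * M ≤ B) (k : ℕ) (hk : ∃ i, k < w i) :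
    ((∑ i, (w i - k) : ℕ) : ℝ) + n * (k + 1) ≤ B := by
  obtain ⟨i0, hi0⟩ := hk
  have hkM : k + 1 ≤ M := by have := hM i0; omega
  obtain ⟨L, rfl⟩ : ∃ L, M = L + 1 := ⟨M - 1, by omega⟩
  rcases Nat.eq_zero_or_pos L with h0 | h0
  · have : k = 0 := by omega
    subst this
    simpa using h1
  · have key : ∀ i, (w i - k) * L ≤ (L - k) * w i + k * (if w i = L + 1 then 1 else 0) := by
      intro i
      have hi := hM i
      obtain ⟨l, hl⟩ : ∃ l, L = k + l := ⟨L - k, by omega⟩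
      subst hl
      rw [Nat.add_sub_cancel_left]
      split_ifs with h
      · rw [h]
        have : k + l + 1 - k = l + 1 := by omega
        rw [this]
        nlinarith
      · rcases le_total (w i) k with h3 | h3
        · rw [Nat.sub_eq_zero_of_le h3]
          omega
        · obtain ⟨v, hv⟩ := Nat.exists_eq_add_of_le h3
          have hv2 : v ≤ l := by omega
          rw [hv, Nat.add_sub_cancel_left]
          have := Nat.mul_le_mul_left k hv2
          nlinarith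
    have hsum : (∑ i, (w i - k)) * L ≤ (L - k) * ∑ i, w i +
        k * (univ.filter fun i => w i = L + 1).card := by
      have h3 : (univ.filter fun i => w i = L + 1).card = ∑ i, if w i = L + 1 then 1 else 0 := by
        rw [card_filter]
      rw [h3, sum_mul, mul_sum, mul_sum, ← sum_add_distrib]
      exact sum_le_sum fun i _ => key i
    have hsum' : ((∑ i, (w i - k) : ℕ) : ℝ) * L ≤ ((L : ℝ) - k) * ((∑ i, w i : ℕ) : ℝ) +
        k * ((univ.filter fun i => w i = L + 1).card : ℝ) := by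
      have h4 : ((L - k : ℕ) : ℝ) = (L : ℝ) - k := by rw [Nat.cast_sub (by omega)]
      rw [← h4]
      exact_mod_cast hsum
    have hL : (0 : ℝ) < L := by exact_mod_cast h0
    have hkL : (0 : ℝ) ≤ (L : ℝ) - k := by
      have : (k : ℝ) ≤ L := by exact_mod_cast (by omega : k ≤ L)
      linarith
    have hk0 : (0 : ℝ) ≤ k := Nat.cast_nonneg k
    have g1 := mul_le_mul_of_nonneg_left h1 hkL
    have g2 := mul_le_mul_of_nonneg_left h2 hk0
    push_cast at g2
    have g3 : (((∑ i, (w i - k) : ℕ) : ℝ) + n * (k + 1)) * L ≤ B * L := by nlinarith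
    exact le_of_mul_le_mul_right g3 hL

open Pool.Agent.TH181.NagM in
theorem Sur_site3 {κ : Type} [Fintype κ] {w : κ → ℕ} {n Bn : ℝ} (hBn : 0 ≤ Bn)
    (hrow : ∀ k : ℕ, (∃ i, k < w i) → ((∑ i, (w i - k) : ℕ) : ℝ) + n * (k + 1) ≤ Bn)
    {M : ℕ} (hM : 1 ≤ M) {x y B t : ℝ} (hx : 0 < x) (hy : 0 < y) (p q : ℤ) (hpq : IsCoprime p q)
    (hp : 0 ≤ p) (hq : p * (4 * M * y) + q = t)
    (ht : 0 < t) (hfront : p * (4 * M * x) ≤ q) (hn : t ^ 2 ≤ n * (4 * M * (x + y)))
    (hB : Bn < t * (B + 4 * M) / (4 * M)) :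
    Sur w {m : ℤ × ℤ | 0 ≤ m.2 ∧ -(y * (B - 4 * M * m.2)) < (m.1 : ℝ) ∧
      (m.1 : ℝ) < x * (B - 4 * M * m.2)} := by
  have hM' : (0 : ℝ) < M := by exact_mod_cast hM
  obtain ⟨σ, hσ⟩ : ∃ σ : ℝ, σ = 4 * M * (x + y) := ⟨_, rfl⟩
  have hσ0 : 0 < σ := by rw [hσ]; positivity
  rw [← hσ] at hn
  obtain ⟨n', hndef⟩ : ∃ n' : ℝ, n' = t ^ 2 / σ := ⟨_, rfl⟩
  have hn0' : 0 < n' := by rw [hndef]; positivity
  have hnn : n' ≤ n := by rw [hndef, div_le_iff₀ hσ0]; exact hn
  have hsn : 0 < √n' := Real.sqrt_pos.2 hn0'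
  have hsσ : 0 < √σ := Real.sqrt_pos.2 hσ0
  have hsσ2 : √σ * √σ = σ := Real.mul_self_sqrt hσ0.le
  have hnσ : √n' = t / √σ := by
    rw [hndef, Real.sqrt_div (sq_nonneg _), Real.sqrt_sq ht.le]
  obtain ⟨c1, hc1⟩ : ∃ c1 : ℝ, c1 = Bn / √n' := ⟨_, rfl⟩
  have hc10 : 0 ≤ c1 := by rw [hc1]; positivity
  have h1 : SP w c1 0 n' := by
    refine ⟨by simpa using hn0', fun E hE α => ?_⟩
    rw [zero_add]
    apply Sur_final
    intro k hk
    have g1 := hrow k hk
    have g2 : n' * (k + 1) ≤ n * (k + 1) :=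
      mul_le_mul_of_nonneg_right hnn (by positivity)
    have g3 : c1 * √n' < E * √n' := mul_lt_mul_of_pos_right hE hsn
    rw [hc1, div_mul_cancel₀ _ hsn.ne'] at g3
    linarith
  have hcl := SP_closed (w := w) hc10
  have h2 : SP w c1 (p * t) (n' - p * t) := by
    have e : p * t + (n' - p * t) = n' := by ring
    refine (Mv.toRT (μ := p * t) (ν := n' - p * t) (by rw [e]; exact hn0')).closed hcl ?_
    rw [e]
    exact h1
  have h3 : SP w c1 (4 * M * y) (4 * M * x) := by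
    refine hcl.stepA p q hpq hp (by linarith)
      hfront (by rw [hσ] at hσ0; linarith) ?_
    have e1 : (p : ℝ) * (p * (4 * M * y) + q) = p * t := by rw [hq]
    have e2 : ((q : ℝ) - p * (4 * M * x)) * (p * (4 * M * y) + q) / (4 * M * y + 4 * M * x) =
        n' - p * t := by
      have e3 : (4 * M * y + 4 * M * x : ℝ) = σ := by rw [hσ]; ring
      have e5 : (q : ℝ) - p * (4 * M * x) = t - p * σ := by
        rw [← e3, mul_add, ← hq]; ring
      rw [e3, hq, e5, hndef]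
      field_simp
    rw [e1, e2]
    exact h2
  obtain ⟨E, hE⟩ : ∃ E : ℝ, E = √σ * (B + 4 * M) / (4 * M) := ⟨_, rfl⟩
  have hcE : c1 < E := by
    rw [hc1, hnσ, hE, div_div_eq_mul_div, div_lt_iff₀ ht]
    have h5 : Bn * √σ < t * (B + 4 * M) / (4 * M) * √σ := mul_lt_mul_of_pos_right hB hsσ
    have h6 : t * (B + 4 * M) / (4 * M) * √σ = √σ * (B + 4 * M) / (4 * M) * t := by ring
    rw [← h6]
    exact h5
  have h4 := h3.2 E hcE (-(y * (B + 4 * M)))
  have e7 : (4 * M * y + 4 * M * x : ℝ) = σ := by rw [hσ]; ring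
  have e8 : -(y * (B + 4 * M)) + E * √σ = x * (B + 4 * M) := by
    have : E * √σ = (√σ * √σ) * (B + 4 * M) / (4 * M) := by rw [hE]; ring
    rw [this, hsσ2, hσ]
    field_simp
    ring
  rw [e7, e8] at h4
  refine h4.shift 0 1 ?_
  rintro ⟨a, b⟩ ⟨h5, h6, h7⟩
  simp only at h5 h6 h7
  refine ⟨by simp only; omega, ?_, ?_⟩
  · simp only
    push_cast
    linarith
  · simp only
    push_cast
    linarith

end Pool.Agent.TH745.MN
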