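import Pool.Agent.H15.G.R_seed8.TH745.MN.Defs
import Pool.Agent.H15.G.R_seed8.TH793.NG.Key

/-! Tubes at the nodes of a curve `y ^ 2 = R(x)` over Hahn series: definitions. -/

set_option autoImplicit false

namespace Pool.Agent.TH745.MN

open Pool.Agent.TH603.EL Pool.Agent.TH603.EL.Scal2 Pool.Agent.TH793.NG

section
variable {F : Type} [Field F]

/-- the expansion of a polynomial in powers of `x - c` -/
noncomputable def phi (c : F) : Polynomial F →+* PowerSeries F :=
  Polynomial.eval₂RingHom (PowerSeries.C (R := F)) (PowerSeries.C c + PowerSeries.X)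

/-- a tube at a node `x = c` of the reduction `y ^ 2 = Rb(x)` of the curve `y ^ 2 = R(x)`: the
branches are `v = 0` (`u = t ^ a z`) and `u = 0` (`v = t ^ b / z`), and the equation of the curve
is `U t ^ κ Y` with a unit `U` -/
structure Tb (R : Polynomial (HK F)) (Rb : Polynomial F) (a b s κ : ℝ) (c : F)
    (xx yy U : HR F) : Prop where
  ha : 0 < a
  hb : 0 < b
  hs : 0 < s
  mx : Mc a b s 0 xx
  my : Mc a b s 0 yy
  ex : Ep a 0 xx = PowerSeries.C c + PowerSeries.X
  em : Em b 0 xx = PowerSeries.C c + PowerSeries.X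
  ey : ∃ η : PowerSeries F, η * η = phi c Rb ∧ Ep a 0 yy = -η ∧ Em b 0 yy = η
  curve : yy ^ 2 - evA xx R = U * tz F κ 0 1
  lowU : Low U 0
  cU : ∃ u : F, u ≠ 0 ∧ U.coeff 0 = algebraMap F (Lau F) u
  nx : ∀ (x y : F) (hx : x ≠ 0) (hy : y ≠ 0), evp hx hy xx ≠ 0
  ny : ∀ (x y : F) (hx : x ≠ 0) (hy : y ≠ 0), evp hx hy yy ≠ 0

/-- the centres of the nodes -/
def cc (F : Type) [Field F] {r : ℕ} (i : Fin r) : F := ((i : F) + 2) ^ 2 - 1

/-- the right side of the equation `y ^ 2 = (1 + x) ∏ ((x - c i) ^ 2 - 4 t ^ (ℓ i))` -/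
noncomputable def RR (F : Type) [Field F] {r : ℕ} (ell : Fin r → ℝ) : Polynomial (HK F) :=
  (1 + Polynomial.X) * ∏ i, ((Polynomial.X - Polynomial.C (HahnSeries.C (cc F i))) ^ 2 -
    Polynomial.C (4 * HahnSeries.single (ell i) (1 : F)))

/-- its reduction -/
noncomputable def Rb (F : Type) [Field F] (r : ℕ) : Polynomial F :=
  (1 + Polynomial.X) * ∏ i : Fin r, (Polynomial.X - Polynomial.C (cc F i)) ^ 2

/-- the equation of the curve -/
noncomputable def hR (R : Polynomial (HK F)) : PXY F := Polynomial.X ^ 2 - Polynomial.C R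

/-- expansions in powers of the equation; `M` is the weight of `y` -/
def Gd (R : Polynomial (HK F)) (M : ℕ) (e : ℤ) (p : PXY F) : Prop :=
  ∃ A B : PXY F, Wt M e A ∧ Wt M (e - M) B ∧ p = A.comp (hR R) + B.comp (hR R) * Polynomial.X

end

end Pool.Agent.TH745.MN
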